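import Pool.Agent.H7.GU.Stmts

/-!
# Row SIZ0 of the board `gu` (MP_fd41b2_co): the numerical inequality for all sizes

Copy of `Pool/Agent/H54/GT/SIZ.lean` (helper54).
-/

set_option autoImplicit false

open Finset

namespace Pool.GU7

open Pool.Agent.H23.KT Pool.Agent.H46.KW Pool.KQ Pool.GT7

theorem SIZ0_thm (hN : NUX0Stmt) (hS : SWLStmt) (hL : LMB0Stmt) : SIZ0Stmt := by
  intro p w r hP
  obtain ⟨a1, ha1⟩ := hN p w r hP
  obtain ⟨K, hK, hK2⟩ := hL p w r hP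
  obtain ⟨a2, ha2⟩ := exists_nat_ge ((4 : ℝ) ^ w * 2 ^ (p + 1) * (1 + K) * (p + 2).choose (w + 1))
  refine ⟨max (max a1 a2) 2, ?_⟩
  intro a ha x hx n hn hb
  have hA1 : a1 ≤ a := le_trans (le_trans (le_max_left _ _) (le_max_left _ _)) ha
  have hA2 : a2 ≤ a := le_trans (le_trans (le_max_right _ _) (le_max_left _ _)) ha
  have h2 : 2 ≤ a := le_trans (le_max_right _ _) ha
  have h2R : (2 : ℝ) ≤ a := by exact_mod_cast h2
  have hapos : (0 : ℝ) < a := by linarith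
  have hMa : (4 : ℝ) ^ w * 2 ^ (p + 1) * (1 + K) * (p + 2).choose (w + 1) ≤ a :=
    ha2.trans (by exact_mod_cast hA2)
  obtain ⟨-, h3, hlam, hLm, hle, -⟩ := hK2 a (by omega)
  have hN' := ha1 a hA1 x hx
  have hcle : -(Lm p w r a * x - lam p w r a) ≤ Lm p w r a := by
    have h0 : 0 ≤ Lm p w r a * x := mul_nonneg hLm.le (Nat.cast_nonneg x)
    linarith
  have hlo : (a : ℝ) / 4 ≤ ((a / 2 : ℕ) : ℝ) := by
    have h5 : a ≤ 4 * (a / 2) := by omega
    have h6 : (a : ℝ) ≤ 4 * ((a / 2 : ℕ) : ℝ) := by exact_mod_cast h5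
    linarith
  have hmain : -(Lm p w r a * x - lam p w r a) * (((2 * a : ℕ) : ℝ)) ^ (p + 1) ≤
      (p + 1).choose w * (((a / 2 : ℕ) : ℝ)) ^ w := by
    have h4 : -(Lm p w r a * x - lam p w r a) * (((2 * a : ℕ) : ℝ)) ^ (p + 1) ≤
        Lm p w r a * (((2 * a : ℕ) : ℝ)) ^ (p + 1) :=
      mul_le_mul_of_nonneg_right hcle (by positivity)
    have h7 : 1 + K / a ≤ 1 + K := by
      have : K / a ≤ K := div_le_self hK.le (by linarith)
      linarith
    have h8 : Lm p w r a * (a : ℝ) ^ (p + 3) ≤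
        (1 + K) * ((p + 2).choose (w + 1) * (a : ℝ) ^ (w + 1)) :=
      h3.trans (mul_le_mul_of_nonneg_right h7 (by positivity))
    have h9 : ((a : ℝ) / 4) ^ w ≤ (((a / 2 : ℕ) : ℝ)) ^ w :=
      pow_le_pow_left₀ (by positivity) hlo w
    have h10 : (1 : ℝ) ≤ (p + 1).choose w := by
      have : 0 < (p + 1).choose w := Nat.choose_pos (le_trans hP.wp (Nat.le_succ p))
      exact_mod_cast this
    have h11 : ((a : ℝ) / 4) ^ w ≤ (p + 1).choose w * (((a / 2 : ℕ) : ℝ)) ^ w := by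
      refine h9.trans ?_
      exact le_mul_of_one_le_left (by positivity) h10
    have h12 : Lm p w r a * (((2 * a : ℕ) : ℝ)) ^ (p + 1) ≤ ((a : ℝ) / 4) ^ w := by
      have hpos : (0 : ℝ) < (a : ℝ) ^ 2 * 4 ^ w := by positivity
      refine le_of_mul_le_mul_right ?_ hpos
      have e1 : Lm p w r a * (((2 * a : ℕ) : ℝ)) ^ (p + 1) * ((a : ℝ) ^ 2 * 4 ^ w) =
          2 ^ (p + 1) * 4 ^ w * (Lm p w r a * (a : ℝ) ^ (p + 3)) := by
        push_cast
        rw [mul_pow]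
        ring
      have e2 : ((a : ℝ) / 4) ^ w * ((a : ℝ) ^ 2 * 4 ^ w) = a * (a : ℝ) ^ (w + 1) := by
        have h40 : (4 : ℝ) ^ w ≠ 0 := by positivity
        rw [div_pow, pow_succ (a : ℝ) w]
        field_simp
      rw [e1, e2]
      calc 2 ^ (p + 1) * 4 ^ w * (Lm p w r a * (a : ℝ) ^ (p + 3))
          ≤ 2 ^ (p + 1) * 4 ^ w * ((1 + K) * ((p + 2).choose (w + 1) * (a : ℝ) ^ (w + 1))) :=
            mul_le_mul_of_nonneg_left h8 (by positivity)
        _ = ((4 : ℝ) ^ w * 2 ^ (p + 1) * (1 + K) * (p + 2).choose (w + 1)) * (a : ℝ) ^ (w + 1) := by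
            ring
        _ ≤ a * (a : ℝ) ^ (w + 1) := mul_le_mul_of_nonneg_right hMa (by positivity)
    exact h4.trans (h12.trans h11)
  have hrp := hP.rp
  have hs := hS p w a (r - x) (a / 2) (2 * a) (Lm p w r a * x - lam p w r a)
    (by omega) (Nat.div_le_self a 2) (by omega) hmain n (by omega)
    (fun i => ⟨by have := (hb i).1; omega, (hb i).2⟩)
  have hexp : p + 3 - (r - x) = p + 3 - r + x := by omega
  rw [hexp] at hs
  nlinarith [hs, hN']

end Pool.GU7
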